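import Pool.Agent.Work.MP_a392d0_lc.Defs
import Mathlib.Data.Nat.Digits.Lemmas
import Mathlib.Tactic

/-!
The string encoding of instances is injective.
-/

namespace Pool.Agent.Work.MP_a392d0_lc

namespace EncInj

theorem bits_injective : Function.Injective Nat.bits := by
  intro m n h
  have h1 := Nat.digits_two_eq_bits m
  have h2 := Nat.digits_two_eq_bits n
  rw [h] at h1
  exact Nat.digits_inj_iff.1 (h1.trans h2.symm)

theorem encNat_delim : ∀ (m n : ℕ) (r s : List Sym), encNat m ++ r = encNat n ++ s →
    m = n ∧ r = s := by
  have key : ∀ (u v : List Bool) (r s : List Sym),
      u.map (fun b => if b then Sym.one else Sym.zero) ++ (Sym.stop :: r) =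
      v.map (fun b => if b then Sym.one else Sym.zero) ++ (Sym.stop :: s) → u = v ∧ r = s := by
    intro u
    induction u with
    | nil =>
      intro v r s h
      cases v with
      | nil => simpa using h
      | cons b v => cases b <;> simp at h
    | cons a u ih =>
      intro v r s h
      cases v with
      | nil => cases a <;> simp at h
      | cons b v =>
        simp only [List.map_cons, List.cons_append, List.cons.injEq] at h
        obtain ⟨h1, h2⟩ := ih v r s h.2
        refine ⟨?_, h2⟩
        rw [h1]
        have : a = b := by
          cases a <;> cases b <;> simp at h <;> rfl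
        rw [this]
  intro m n r s h
  unfold encNat at h
  obtain ⟨h1, h2⟩ := key m.bits n.bits r s (by simpa using h)
  exact ⟨bits_injective h1, h2⟩

theorem encNat_ne_nil (m : ℕ) : encNat m ≠ [] := by
  unfold encNat; simp

end EncInj

theorem encInst_injective : Function.Injective encInst := by
  have key : ∀ l l' : List (ℕ × ℕ),
      (l.flatMap fun x => encNat x.1 ++ encNat x.2) =
        (l'.flatMap fun x => encNat x.1 ++ encNat x.2) → l = l' := by
    intro l
    induction l with
    | nil =>
      intro l' h
      cases l' with
      | nil => rfl
      | cons y l' =>
        simp only [List.flatMap_nil, List.flatMap_cons] at h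
        have := congrArg List.length h
        have h1 := List.length_pos_of_ne_nil (EncInj.encNat_ne_nil y.1)
        simp only [List.length_nil, List.length_append] at this
        omega
    | cons x l ih =>
      intro l' h
      cases l' with
      | nil =>
        simp only [List.flatMap_nil, List.flatMap_cons] at h
        have := congrArg List.length h
        have h1 := List.length_pos_of_ne_nil (EncInj.encNat_ne_nil x.1)
        simp only [List.length_nil, List.length_append] at this
        omega
      | cons y l' =>
        simp only [List.flatMap_cons, List.append_assoc] at h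
        obtain ⟨h1, h2⟩ := EncInj.encNat_delim _ _ _ _ h
        obtain ⟨h3, h4⟩ := EncInj.encNat_delim _ _ _ _ h2
        rw [ih l' h4, Prod.ext h1 h3]
  rintro ⟨l, h1, h2⟩ ⟨l', h1', h2'⟩ h
  have := key l l' h
  subst this
  rfl

end Pool.Agent.Work.MP_a392d0_lc
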