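import Pool.Agent.Work.MP_a392d0_lc.Interface

/-!
Block M1b: arbitrarily long finite runs give an infinite run.
-/

namespace Pool.Agent.Work.MP_a392d0_lc

theorem stepOK_congr {n : ℕ} {cl : Cl} (hn : Bdd n cl) {u u' v v' : ℕ → Bool}
    (hu : ∀ i < n, u i = u' i) (hv : ∀ i < n, v i = v' i) (h : StepOK cl u v) :
    StepOK cl u' v' := by
  intro c hc
  obtain ⟨l, hl, h⟩ := h c hc
  refine ⟨l, hl, ?_⟩
  have h1 := hn c hc l hl
  obtain ⟨a, i, b⟩ := l
  simp only [LitOK] at h h1 ⊢
  cases a
  · simpa [← hu i h1] using h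
  · simpa [← hv i h1] using h

theorem stmt_M1b : Stmt_M1b := by
  intro n cl hn hrun
  obtain ⟨s, hs⟩ := hrun (Fintype.card (Fin n → Bool) + 1)
  have : Fintype.card (Fin n → Bool) < Fintype.card (Fin (Fintype.card (Fin n → Bool) + 1)) := by
    simp
  obtain ⟨i, j, hij, he⟩ := Fintype.exists_ne_map_eq_of_card_lt
    (fun (i : Fin (Fintype.card (Fin n → Bool) + 1)) (x : Fin n) => s i x) this
  wlog hlt : (i : ℕ) < j generalizing i j
  · exact this j i hij.symm he.symm (lt_of_le_of_ne (not_lt.1 hlt)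
      (fun h => hij (Fin.ext h.symm)))
  set d := (j : ℕ) - i with hd
  refine ⟨fun t => s (i + t % d), fun t => ?_⟩
  have hj := j.2
  have hdpos : 0 < d := by omega
  have hmod := Nat.mod_lt t hdpos
  have h1 := hs (i + t % d) (by omega)
  by_cases hlast : t % d + 1 < d
  · have h2 : (t + 1) % d = t % d + 1 := by
      rw [Nat.add_mod, Nat.mod_eq_of_lt (show 1 < d by omega), Nat.mod_eq_of_lt hlast]
    simp only [h2]
    exact h1
  · have h2 : (t + 1) % d = 0 := by
      have h3 : t % d + 1 = d := by omega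
      have h4 : (t + 1) % d = (t % d + 1) % d := by simp [Nat.add_mod]
      rw [h4, h3, Nat.mod_self]
    simp only [h2, Nat.add_zero]
    refine stepOK_congr hn (fun _ _ => rfl) (fun x hx => ?_) h1
    have h3 := congrFun he ⟨x, hx⟩
    simp only at h3
    rw [show (i : ℕ) + t % d + 1 = j by omega, h3]

end Pool.Agent.Work.MP_a392d0_lc
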