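import Pool.Agent.Work.MP_a392d0_lc.RS
import Pool.Agent.Work.MP_a392d0_lc.M1b

/-!
The final theorem from the blocks.
-/

namespace Pool.Agent.Work.MP_a392d0_lc

open Pool.Agent.Work.TMLib

theorem kap_mod (n : ℕ) (cls : Cl) (x : ℕ) :
    kap n cls (x % (2 * hp n cls)) = kap n cls x := by
  have h1 : x % (2 * hp n cls) % hp n cls = x % hp n cls := Nat.mod_mul_left_mod _ _ _
  have h2 : x % (2 * hp n cls) / hp n cls % 2 = x / hp n cls % 2 := by
    rw [mul_comm 2, Nat.mod_mul_right_div_self, Nat.mod_mod]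
  unfold kap
  rw [h1, h2]

theorem kap_le23 (n : ℕ) (cls : Cl) (x : ℕ) : kap n cls x ≤ 23 := by
  unfold kap
  split
  · omega
  · rename_i r _
    have h1 : sb (xor r (decide (x / hp n cls % 2 = 1))) ≤ 20 := by
      unfold sb
      cases xor r (decide (x / hp n cls % 2 = 1)) <;> simp
    have h2 : ∀ (p q : Prop) [Decidable p] [Decidable q], (p → q → False) →
        (if p then 1 else 0) + (if q then 2 else 0) ≤ 2 := by
      intro p q _ _ h
      by_cases hp : p <;> by_cases hq : q <;> simp_all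
    have h3 := h2 (x % hp n cls / (2 * n) < 4 * cls.length ∧
        (r, (x % hp n cls % (2 * n)) / 2, decide ((x % hp n cls % (2 * n)) % 2 = 1)) ∈
          cls.getD (x % hp n cls / (2 * n) / 4) [])
      (x % hp n cls / (2 * n) = 4 * cls.length + 1 ∧ x % hp n cls % (2 * n) = 0) (by
        rintro ⟨h3, -⟩ ⟨h4, -⟩
        omega)
    omega

theorem bas_ge (m : ℕ) : 46 * (2 * m) + 47 ≤ bas m := by
  unfold bas dl
  exact Nat.lt_two_pow_self

theorem sum_pow_lt (b : ℕ) (hb : 2 ≤ b) (N : ℕ) :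
    ∑ k ∈ Finset.range N, b ^ (k + 1) + b ≤ 2 * b ^ (N + 1) - b := by
  induction N with
  | zero => simp; omega
  | succ N ih =>
    rw [Finset.sum_range_succ]
    have h1 : 2 * b ^ (N + 1) ≤ b ^ (N + 2) := by
      rw [pow_succ b (N + 1), mul_comm]
      exact Nat.mul_le_mul_left _ hb
    have h2 : b ≤ b ^ (N + 1) := by
      calc b = b ^ 1 := (pow_one b).symm
        _ ≤ b ^ (N + 1) := Nat.pow_le_pow_right (by omega) (by omega)
    have h3 : b ^ (N + 2) = b ^ (N + 1 + 1) := rfl
    omega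

theorem sum_pow_lt' (b : ℕ) (hb : 3 ≤ b) (N : ℕ) :
    ∑ k ∈ Finset.range N, b ^ (k + 1) + b ≤ b ^ (N + 1) := by
  induction N with
  | zero => simp
  | succ N ih =>
    rw [Finset.sum_range_succ]
    have h1 : 2 * b ^ (N + 1) ≤ b ^ (N + 2) := by
      rw [pow_succ b (N + 1), mul_comm]
      exact Nat.mul_le_mul_left _ (by omega)
    have h3 : b ^ (N + 2) = b ^ (N + 1 + 1) := rfl
    omega

theorem Kf_le (n : ℕ) (cls : Cl) (m : ℕ) (t : ℕ) :
    Kf m (bas m) (kap n cls) t ≤ hh m := by
  have h1 := bas_ge m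
  have h2 := kap_le23 n cls t
  have h3 := sum_pow_lt' (bas m) (by omega) (2 * m)
  have h4 : ∑ k ∈ (Finset.range (2 * m)).filter (fun k => Dd m k t), bas m ^ (k + 1) ≤
      ∑ k ∈ Finset.range (2 * m), bas m ^ (k + 1) :=
    Finset.sum_le_sum_of_subset (Finset.filter_subset _ _)
  unfold Kf hh
  omega

theorem hh_lt (m : ℕ) : (2 * m + 2) * hh m < cc m := by
  have h1 := bas_ge m
  have h2 : (2 * m + 2) * hh m ≤ bas m ^ (2 * m + 2) := by
    unfold hh
    rw [pow_succ (bas m) (2 * m + 1), mul_comm]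
    exact Nat.mul_le_mul_left _ (by omega)
  unfold cc
  omega

theorem hp_ge10 {n : ℕ} {cls : Cl} (hn : 1 ≤ n) : 9 * (2 * n) ≤ hp n cls ∨ cls.length = 0 := by
  by_cases h : cls.length = 0
  · exact Or.inr h
  · left
    exact Nat.mul_le_mul_right _ (by omega)

theorem we_le {n : ℕ} {cls : Cl} (hn : 1 ≤ n) (hc : 1 ≤ cls.length)
    (i : Fin (2 * hp n cls) ⊕ FI n) :
    1 ≤ we (hp n cls) fw i ∧ we (hp n cls) fw i ≤ 2 * hp n cls := by
  have h1 : 9 * (2 * n) ≤ hp n cls := by
    rcases hp_ge10 (n := n) (cls := cls) hn with h | h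
    · exact h
    · omega
  rcases i with k | (_ | _)
  · simp only [we]
    split <;> omega
  · simp only [we, fw]
    omega
  · simp only [we, fw]
    omega

theorem taut_mem {n : ℕ} {cl : Cl} : ∀ i < n, [(false, i, true), (false, i, false)] ∈ taut n cl := by
  intro i hi
  unfold taut
  rw [List.mem_append, List.mem_map]
  exact Or.inr ⟨i, List.mem_range.2 hi, rfl⟩

theorem taut_bdd {n : ℕ} {cl : Cl} (h : Bdd n cl) : Bdd n (taut n cl) := by
  intro c hc l hl
  unfold taut at hc
  rw [List.mem_append, List.mem_map] at hc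
  rcases hc with hc | ⟨i, hi, rfl⟩
  · exact h c hc l hl
  · rw [List.mem_range] at hi
    simp only [List.mem_cons, List.not_mem_nil, or_false] at hl
    rcases hl with rfl | rfl <;> exact hi

theorem taut_stepOK {n : ℕ} {cl : Cl} {u v : ℕ → Bool} :
    StepOK (taut n cl) u v ↔ StepOK cl u v := by
  constructor
  · intro h c hc
    exact h c (by unfold taut; exact List.mem_append_left _ hc)
  · intro h c hc
    unfold taut at hc
    rw [List.mem_append, List.mem_map] at hc
    rcases hc with hc | ⟨i, hi, rfl⟩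
    · exact h c hc
    · cases hb : u i
      · exact ⟨(false, i, false), by simp, by simp [LitOK, hb]⟩
      · exact ⟨(false, i, true), by simp, by simp [LitOK, hb]⟩

theorem taut_run {n : ℕ} {cl : Cl} : Run (taut n cl) ↔ Run cl := by
  simp only [Run, taut_stepOK]

theorem taut_length {n : ℕ} {cl : Cl} (hn : 1 ≤ n) : 1 ≤ (taut n cl).length := by
  unfold taut
  simp
  omega

theorem taut_polyF {n : List Bool → ℕ} {cl : List Bool → Cl} (hn : PolyF n) (hcl : PolyF cl) :
    PolyF fun w => taut (n w) (cl w) := by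
  unfold taut
  refine PolyF.append hcl ?_
  exact PolyF.map (l := fun w => List.range (n w))
    (f := fun _ i => [(false, i, true), (false, i, false)]) (by fun_prop) (by fun_prop)

/-- The correctness of the reduction. -/
theorem feasJ_iff (hRC : Stmt_RC) (hOF : Stmt_OF) (hOC : Stmt_OC) (hFS : Stmt_FS) (hFC : Stmt_FC)
    {n : ℕ} {cl : Cl} (hn : 1 ≤ n) (hb : Bdd n cl) :
    FeasJ (jf n (hp n (taut n cl))) (jp n (hp n (taut n cl)) (kap n (taut n cl))) ↔ Run cl := by
  classical
  have hlen := taut_length (cl := cl) hn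
  have hm : 9 * (2 * n) ≤ hp n (taut n cl) := by
    rcases hp_ge10 (n := n) (cls := taut n cl) hn with h | h
    · exact h
    · omega
  have hbas := bas_ge (hp n (taut n cl))
  constructor
  · intro h
    obtain ⟨x0, τ, C, h1, h2, h3, h4, h5⟩ := stmt_RS (2 * hp n (taut n cl))
      (Fin (2 * hp n (taut n cl)) ⊕ FI n) inferInstance inferInstance (cc (hp n (taut n cl)))
      (hh (hp n (taut n cl))) (Kf (hp n (taut n cl)) (bas (hp n (taut n cl))) (kap n (taut n cl)))
      (se (hp n (taut n cl)) (bas (hp n (taut n cl))) fs) (we (hp n (taut n cl)) fw) (by omega)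
      (fun t _ => Kf_le _ _ _ _) (hh_lt _) (we_le hn hlen) h
    have h6 := hOF (hp n (taut n cl)) (bas (hp n (taut n cl))) (FI n) inferInstance inferInstance
      (kap n (taut n cl)) fs fw x0 τ C (by omega) (by omega) (fun t _ => by
        have := kap_le23 n (taut n cl) t
        omega) h1 h2 h3 h4 h5
    have h7 : Run (taut n cl) := by
      refine stmt_M1b n _ (taut_bdd hb) fun r => ?_
      obtain ⟨C', hC'⟩ := h6 ((r + 3) * hp n (taut n cl))
      refine hFS n (taut n cl) hn (taut_bdd hb) taut_mem r _ C' le_rfl ?_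
      have : (fun x => kap n (taut n cl) (x % (2 * hp n (taut n cl)))) = kap n (taut n cl) :=
        funext fun x => kap_mod _ _ _
      rwa [this] at hC'
    exact taut_run.1 h7
  · intro h
    obtain ⟨C, hC1, hC2⟩ := hFC n (taut n cl) hn (taut_bdd hb) hlen (taut_run.2 h)
    obtain ⟨C', hC3, hC4⟩ := hOC (hp n (taut n cl)) (bas (hp n (taut n cl))) (FI n) inferInstance
      inferInstance (kap n (taut n cl)) fs fw C (by omega) (fun x => by
        rw [kap_mod]
        exact hC1 x) hC2
    exact hRC (2 * hp n (taut n cl)) (Fin (2 * hp n (taut n cl)) ⊕ FI n) inferInstance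
      inferInstance (cc (hp n (taut n cl))) (hh (hp n (taut n cl)))
      (Kf (hp n (taut n cl)) (bas (hp n (taut n cl))) (kap n (taut n cl)))
      (se (hp n (taut n cl)) (bas (hp n (taut n cl))) fs) (we (hp n (taut n cl)) fw) (by omega)
      (fun t _ => Kf_le _ _ _ _) (hh_lt _) (we_le hn hlen) C' hC3 hC4

theorem main_of (hM1 : Stmt_M1) (hRC : Stmt_RC) (hOF : Stmt_OF) (hOC : Stmt_OC) (hFS : Stmt_FS)
    (hFC : Stmt_FC) (hM5 : Stmt_M5) : PSPACEHard encInst Positive Feasible := by
  intro L hL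
  obtain ⟨n, cl, hn, hcl, h⟩ := hM1 L hL
  obtain ⟨f, hf, hf'⟩ := hM5 n (fun w => taut (n w) (cl w)) hn (taut_polyF hn hcl)
    (fun w => (h w).1) (fun w => taut_length (h w).1)
  refine ⟨f, hf, fun w => ⟨(hf' w).1, ?_⟩⟩
  rw [(hf' w).2, feasJ_iff hRC hOF hOC hFS hFC (h w).1 (h w).2.1]
  exact (h w).2.2

end Pool.Agent.Work.MP_a392d0_lc
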