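import Mathlib.Algebra.BigOperators.Group.Finset.Basic
import Mathlib.Data.Nat.Bits
import Mathlib.Order.Interval.Finset.Nat
import Pool.Agent.Work.TMLib.Classes

/-!
Duration-aware pinwheel scheduling, the class `PSPACE`, and hardness for it.
-/

namespace Pool.Agent.Work.MP_a392d0_lc

open Turing Pool.Agent.Work.TMLib

/-- An instance: a nonempty list of jobs, each given by the pair (frequency, duration), in the
order of nondecreasing frequencies. -/
structure Inst where
  jobs : List (ℕ × ℕ)
  ne : jobs ≠ []
  sorted : jobs.Pairwise fun x y => x.1 ≤ y.1

/-- `S` is a feasible schedule for `V`: every job `i` is processed infinitely often, and for any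
two consecutive processings `a < b` of `i` the durations of the jobs processed at the times
`a + 1, …, b` add up to at most the frequency of `i`. -/
def IsSchedule (V : Inst) (S : ℕ → Fin V.jobs.length) : Prop :=
  ∀ i, (∀ t, ∃ b, t ≤ b ∧ S b = i) ∧
    ∀ a b, a < b → S a = i → S b = i → (∀ t, a < t → t < b → S t ≠ i) →
      ∑ t ∈ Finset.Ioc a b, (V.jobs.get (S t)).2 ≤ (V.jobs.get i).1

/-- The yes-instances of duration-aware pinwheel scheduling. -/
def Feasible : Set Inst := {V | ∃ S, IsSchedule V S}

/-- The instances all of whose frequencies and durations are positive. -/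
def Positive : Set Inst := {V | ∀ x ∈ V.jobs, 1 ≤ x.1 ∧ 1 ≤ x.2}

/-- The alphabet for writing instances: two binary digits and an end-of-number mark. -/
inductive Sym | zero | one | stop
deriving DecidableEq

/-- A natural number, written in binary (least significant digit first) and ended by `stop`. -/
def encNat (n : ℕ) : List Sym :=
  n.bits.map (fun b => if b then Sym.one else Sym.zero) ++ [Sym.stop]

/-- The string of an instance: the frequencies and durations of the jobs in binary. -/
def encInst (V : Inst) : List Sym := V.jobs.flatMap fun x => encNat x.1 ++ encNat x.2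

/-- The language `L` is in `PSPACE`: some stack machine (Mathlib's `Turing.FinTM2`, all stack
alphabets finite) started on the input `w` halts with the output `[w ∈ L]`, and in all
configurations it passes through every stack has length at most `p |w|`, for some polynomial
`p`. -/
def InPSPACE (L : Set (List Bool)) : Prop :=
  ∃ (M : TM2ComputableAux Bool Bool) (p : Polynomial ℕ), (∀ k, Finite (M.tm.Γ k)) ∧
    ∀ w : List Bool,
      (∃ b : Bool, (b = true ↔ w ∈ L) ∧ Nonempty (TM2Outputs M.tm
        (w.map M.inputAlphabet.invFun) (some [M.outputAlphabet.invFun b]))) ∧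
      ∀ n c, (flip bind M.tm.step)^[n] (some (initList M.tm (w.map M.inputAlphabet.invFun))) =
        some c → ∀ k, (c.stk k).length ≤ p.eval w.length

/-- The decision problem with instances `β`, string encoding `eb : β → List Γ` and set `Y` of
yes-instances, restricted to the instances in `P`, is hard for `PSPACE` under polynomial-time
many-one reductions. -/
def PSPACEHard {β Γ : Type} (eb : β → List Γ) (P Y : Set β) : Prop :=
  ∀ L : Set (List Bool), InPSPACE L →
    ∃ f : List Bool → β, PolyTime id eb f ∧ ∀ w, f w ∈ P ∧ (w ∈ L ↔ f w ∈ Y)

end Pool.Agent.Work.MP_a392d0_lc
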