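import Pool.Agent.Work.MP_a392d0_lc.Defs
import Pool.Agent.Work.TMLib.Lib2
import Mathlib.Tactic

/-!
# PSPACE-hardness of duration-aware pinwheel scheduling: interfaces of the blocks

See `BLUEPRINT.md` for the proofs.
-/

namespace Pool.Agent.Work.MP_a392d0_lc

open Pool.Agent.Work.TMLib

/-! ### 1. Infinite runs of boolean transition systems (block M1) -/

/-- A literal: `(false, i, b)` says that bit `i` of the current state is `b`, and `(true, i, b)`
says this of the next state. -/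
abbrev Lit := Bool × ℕ × Bool

/-- A transition relation, given by clauses. -/
abbrev Cl := List (List Lit)

/-- The literal `l` holds for the current state `u` and the next state `v`. -/
def LitOK (u v : ℕ → Bool) (l : Lit) : Prop := (bif l.1 then v l.2.1 else u l.2.1) = l.2.2

/-- `v` is a successor of `u`. -/
def StepOK (cl : Cl) (u v : ℕ → Bool) : Prop := ∀ c ∈ cl, ∃ l ∈ c, LitOK u v l

/-- Only the bits `i < n` are mentioned. -/
def Bdd (n : ℕ) (cl : Cl) : Prop := ∀ c ∈ cl, ∀ l ∈ c, l.2.1 < n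

/-- There is an infinite run. -/
def Run (cl : Cl) : Prop := ∃ s : ℕ → ℕ → Bool, ∀ r, StepOK cl (s r) (s (r + 1))

/-- Block M1: the existence of infinite runs is `PSPACE`-hard. -/
def Stmt_M1 : Prop := ∀ L : Set (List Bool), InPSPACE L →
  ∃ (n : List Bool → ℕ) (cl : List Bool → Cl), PolyF n ∧ PolyF cl ∧
    ∀ w, 1 ≤ n w ∧ Bdd (n w) (cl w) ∧ (w ∈ L ↔ Run (cl w))

/-- Block M1b: arbitrarily long finite runs give an infinite run. -/
def Stmt_M1b : Prop := ∀ (n : ℕ) (cl : Cl), Bdd n cl →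
  (∀ r : ℕ, ∃ s : ℕ → ℕ → Bool, ∀ h < r, StepOK cl (s h) (s (h + 1))) → Run cl

/-! ### 2. From schedules to fillings of bins (blocks RS, RC) -/

/-- Feasibility of the scheduling problem with job set `J`. -/
def FeasJ {J : Type} (f p : J → ℕ) : Prop := ∃ S : ℕ → J, ∀ i : J, (∀ t, ∃ b, t ≤ b ∧ S b = i) ∧
  ∀ a b, a < b → S a = i → S b = i → (∀ t, a < t → t < b → S t ≠ i) →
    ∑ t ∈ Finset.Ioc a b, p (S t) ≤ f i

/-- The jobs: the separator `a`, one big job `r t` for each of the `N` types of bins, and the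
items. -/
inductive RJob (N : ℕ) (I : Type) : Type
  | a
  | r (t : Fin N)
  | item (i : I)

/-- The durations. `c` is the capacity of a bin, of which the big job of type `t` leaves `K t`. -/
def rp {N : ℕ} {I : Type} (c : ℕ) (K : ℕ → ℕ) (s : I → ℕ) : RJob N I → ℕ
  | .a => c
  | .r t => c - K t
  | .item i => s i

/-- The frequencies. -/
def rf {N : ℕ} {I : Type} (c h : ℕ) (w : I → ℕ) : RJob N I → ℕ
  | .a => 2 * c
  | .r _ => N * (2 * c) + h
  | .item i => w i * (2 * c) + h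

/-- Block RS: a feasible schedule gives, from some point on, a sequence of bins, numbered
`x0, x0 + 1, …`; bin `x` has type `τ x`, and every `N` consecutive bins have the `N` different
types, in a cyclic order which is the same all the time; the set `C x` of items processed in bin
`x` obeys the capacity `K (τ x)`; and item `i` is processed in any `w i` consecutive bins. -/
def Stmt_RS : Prop := ∀ (N : ℕ) (I : Type) (_ : Fintype I) (_ : DecidableEq I) (c h : ℕ)
  (K : ℕ → ℕ) (s w : I → ℕ), 1 ≤ N → (∀ t < N, K t ≤ h) → (N + 2) * h < c →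
  (∀ i, 1 ≤ w i ∧ w i ≤ N) → FeasJ (J := RJob N I) (rf c h w) (rp c K s) →
  ∃ (x0 : ℕ) (τ : ℕ → ℕ) (C : ℕ → Finset I),
    (∀ x, x0 ≤ x → τ x < N) ∧ (∀ x, x0 ≤ x → τ (x + N) = τ x) ∧
    (∀ x y, x0 ≤ x → x < y → y < x + N → τ y ≠ τ x) ∧
    (∀ x, x0 ≤ x → ∑ i ∈ C x, s i ≤ K (τ x)) ∧
    (∀ i x, x0 ≤ x → ∃ y, x ≤ y ∧ y < x + w i ∧ i ∈ C y)

/-- Block RC: the converse, for the cyclic order `0, 1, …, N - 1`. -/
def Stmt_RC : Prop := ∀ (N : ℕ) (I : Type) (_ : Fintype I) (_ : DecidableEq I) (c h : ℕ)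
  (K : ℕ → ℕ) (s w : I → ℕ), 1 ≤ N → (∀ t < N, K t ≤ h) → (N + 2) * h < c →
  (∀ i, 1 ≤ w i ∧ w i ≤ N) →
  ∀ C : ℕ → Finset I, (∀ x, ∑ i ∈ C x, s i ≤ K (x % N)) →
  (∀ i x, ∃ y, x ≤ y ∧ y < x + w i ∧ i ∈ C y) →
  FeasJ (J := RJob N I) (rf c h w) (rp c K s)

/-! ### 3. Forcing the order of the bins (blocks OF, OC) -/

/-- The two types of bins in which the order item `k < 2 * m` is to be processed. -/
def Dd (m k t : ℕ) : Prop :=
  if k < m then t = k ∨ t = k + m else t = k - m ∨ t = (k + 1) % (2 * m)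

instance (m k t : ℕ) : Decidable (Dd m k t) := by unfold Dd; infer_instance

/-- The capacity of a bin of type `t`: room for its order items and for `κ t` more. -/
def Kf (m β : ℕ) (κ : ℕ → ℕ) (t : ℕ) : ℕ :=
  κ t + ∑ k ∈ (Finset.range (2 * m)).filter (fun k => Dd m k t), β ^ (k + 1)

/-- Sizes of the items: order items `Sum.inl k` and other items `Sum.inr i`. -/
def se {F : Type} (m β : ℕ) (s : F → ℕ) : Fin (2 * m) ⊕ F → ℕ
  | .inl k => β ^ ((k : ℕ) + 1)
  | .inr i => s i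

/-- Windows of the items. -/
def we {F : Type} (m : ℕ) (w : F → ℕ) : Fin (2 * m) ⊕ F → ℕ
  | .inl k => if (k : ℕ) < m then m else m + 1
  | .inr i => w i

/-- A filling of the first `Z` bins by the items `F`: `κ` are the capacities, `s` the sizes,
`w` the windows. -/
def SegFill {F : Type} (κ : ℕ → ℕ) (s w : F → ℕ) (Z : ℕ) (C : ℕ → Finset F) : Prop :=
  (∀ x < Z, ∑ i ∈ C x, s i ≤ κ x) ∧
    ∀ i x, x + w i ≤ Z → ∃ y, x ≤ y ∧ y < x + w i ∧ i ∈ C y

/-- Block OF: the order items force the cyclic order `0, 1, …, 2 m - 1` of the types, up to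
reflection; finite pieces may be reflected. -/
def Stmt_OF : Prop := ∀ (m β : ℕ) (F : Type) (_ : Fintype F) (_ : DecidableEq F) (κ : ℕ → ℕ)
  (s w : F → ℕ) (x0 : ℕ) (τ : ℕ → ℕ) (C : ℕ → Finset (Fin (2 * m) ⊕ F)),
  2 ≤ m → 2 ≤ β → (∀ t < 2 * m, κ t < β) →
  (∀ x, x0 ≤ x → τ x < 2 * m) → (∀ x, x0 ≤ x → τ (x + 2 * m) = τ x) →
  (∀ x y, x0 ≤ x → x < y → y < x + 2 * m → τ y ≠ τ x) →
  (∀ x, x0 ≤ x → ∑ i ∈ C x, se m β s i ≤ Kf m β κ (τ x)) →
  (∀ i x, x0 ≤ x → ∃ y, x ≤ y ∧ y < x + we m w i ∧ i ∈ C y) →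
  ∀ Z : ℕ, ∃ C' : ℕ → Finset F, SegFill (fun x => κ (x % (2 * m))) s w Z C'

/-- Block OC: the order items can be added to a filling by the other items. -/
def Stmt_OC : Prop := ∀ (m β : ℕ) (F : Type) (_ : Fintype F) (_ : DecidableEq F) (κ : ℕ → ℕ)
  (s w : F → ℕ) (C : ℕ → Finset F), 2 ≤ m →
  (∀ x, ∑ i ∈ C x, s i ≤ κ (x % (2 * m))) → (∀ i x, ∃ y, x ≤ y ∧ y < x + w i ∧ i ∈ C y) →
  ∃ C' : ℕ → Finset (Fin (2 * m) ⊕ F),
    (∀ x, ∑ i ∈ C' x, se m β s i ≤ Kf m β κ (x % (2 * m))) ∧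
    (∀ i x, ∃ y, x ≤ y ∧ y < x + we m w i ∧ i ∈ C' y)

/-! ### 4. The programme (blocks FS, FC)

The line of bins is cut into blocks of `G = 2 * n` bins (cells), and `4 * M + 5` consecutive
blocks form a half-period, of `m = (4 * M + 5) * G` bins; `M` is the number of clauses. -/

/-- The role of a block of a half-period: `some false`, `some true` or `none` (empty block). -/
def role (M blk : ℕ) : Option Bool :=
  if blk < 4 * M then
    if blk % 4 = 0 then some false else if blk % 4 = 1 then some true else none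
  else if blk = 4 * M ∨ blk = 4 * M + 2 then some false
  else if blk = 4 * M + 1 then some true
  else none

/-- The base sizes of the two classes of track items. -/
def sb (c : Bool) : ℕ := bif c then 10 else 20

/-- Half the period. -/
def hp (n : ℕ) (cls : Cl) : ℕ := (4 * cls.length + 5) * (2 * n)

/-- The capacity of bin `x`. Cell `2 * i + b` of a block belongs to the literal with index `i`
and sign `b`. -/
def kap (n : ℕ) (cls : Cl) (x : ℕ) : ℕ :=
  match role cls.length (x % hp n cls / (2 * n)) with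
  | none => 0
  | some r =>
    sb (xor r (decide (x / hp n cls % 2 = 1))) + 1 +
    (if x % hp n cls / (2 * n) < 4 * cls.length ∧
        (r, (x % hp n cls % (2 * n)) / 2, decide ((x % hp n cls % (2 * n)) % 2 = 1)) ∈
          cls.getD (x % hp n cls / (2 * n) / 4) [] then 1 else 0) +
    (if x % hp n cls / (2 * n) = 4 * cls.length + 1 ∧ x % hp n cls % (2 * n) = 0 then 2 else 0)

/-- The flexible items: track items `(class, big?, index)` and the probe. -/
inductive FI (n : ℕ) : Type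
  | trk (c big : Bool) (i : Fin n)
  | q
deriving DecidableEq, Fintype

/-- Sizes. -/
def fs {n : ℕ} : FI n → ℕ
  | .trk c big _ => sb c + bif big then 1 else 0
  | .q => 2

/-- Windows. -/
def fw {n : ℕ} : FI n → ℕ
  | .trk _ _ _ => 4 * (2 * n)
  | .q => 6 * (2 * n)

/-- Block FS: a filling of a long enough piece gives a long run. -/
def Stmt_FS : Prop := ∀ (n : ℕ) (cls : Cl), 1 ≤ n → Bdd n cls →
  (∀ i < n, [(false, i, true), (false, i, false)] ∈ cls) →
  ∀ (r Z : ℕ) (C : ℕ → Finset (FI n)), (r + 3) * hp n cls ≤ Z →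
  SegFill (kap n cls) fs fw Z C →
  ∃ s : ℕ → ℕ → Bool, ∀ h < r, StepOK cls (s h) (s (h + 1))

/-- Block FC: an infinite run gives a filling. -/
def Stmt_FC : Prop := ∀ (n : ℕ) (cls : Cl), 1 ≤ n → Bdd n cls → 1 ≤ cls.length → Run cls →
  ∃ C : ℕ → Finset (FI n), (∀ x, ∑ i ∈ C x, fs i ≤ kap n cls x) ∧
    ∀ i x, ∃ y, x ≤ y ∧ y < x + fw i ∧ i ∈ C y

/-! ### 5. The instance (block M5) -/

/-- The clauses, with the tautologies for the current state added. -/
def taut (n : ℕ) (cl : Cl) : Cl :=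
  cl ++ (List.range n).map fun i => [(false, i, true), (false, i, false)]

/-- The number of bits of a digit. -/
def dl (m : ℕ) : ℕ := 46 * (2 * m) + 46

/-- The base. -/
def bas (m : ℕ) : ℕ := 2 ^ dl m

/-- The capacity of a bin. -/
def cc (m : ℕ) : ℕ :=
  bas m ^ (2 * m + 2) + ∑ k ∈ Finset.range (2 * m), bas m ^ (k + 1) + 23

/-- The allowance. -/
def hh (m : ℕ) : ℕ := bas m ^ (2 * m + 1)

/-- The job set of the instance. -/
abbrev FJ (n m : ℕ) := RJob (2 * m) (Fin (2 * m) ⊕ FI n)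

/-- The frequencies. -/
def jf (n m : ℕ) : FJ n m → ℕ := rf (cc m) (hh m) (we m fw)

/-- The durations. -/
def jp (n m : ℕ) (κ : ℕ → ℕ) : FJ n m → ℕ := rp (cc m) (Kf m (bas m) κ) (se m (bas m) fs)

/-- Block M5: the instance can be written down in polynomial time. -/
def Stmt_M5 : Prop := ∀ (n : List Bool → ℕ) (cls : List Bool → Cl), PolyF n → PolyF cls →
  (∀ w, 1 ≤ n w) → (∀ w, 1 ≤ (cls w).length) →
  ∃ f : List Bool → Inst, PolyTime id encInst f ∧ ∀ w, f w ∈ Positive ∧
    (f w ∈ Feasible ↔ FeasJ (jf (n w) (hp (n w) (cls w)))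
      (jp (n w) (hp (n w) (cls w)) (kap (n w) (cls w))))

end Pool.Agent.Work.MP_a392d0_lc
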