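import Pool.Agent.Work.MP_a392d0_lc.Interface

/-!
Block RS: the bins of a feasible schedule.
-/

namespace Pool.Agent.Work.MP_a392d0_lc

open Finset

section RS

variable {N : ℕ} {I : Type}

instance [Finite I] : Finite (RJob N I) := by
  refine Finite.of_injective (fun j : RJob N I => match j with
    | .a => (none : Option (Fin N ⊕ I))
    | .r t => some (.inl t)
    | .item i => some (.inr i)) ?_
  rintro (_ | _ | _) (_ | _ | _) h <;> simp_all

/-- The total duration in the half-open interval. -/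
def dur {J : Type} (p : J → ℕ) (S : ℕ → J) (a b : ℕ) : ℕ := ∑ t ∈ Ioc a b, p (S t)

theorem dur_mono {J : Type} {p : J → ℕ} {S : ℕ → J} {a a' b b' : ℕ} (h1 : a' ≤ a) (h2 : b ≤ b') :
    dur p S a b ≤ dur p S a' b' :=
  sum_le_sum_of_subset (Ioc_subset_Ioc h1 h2)

theorem exists_consec {J : Type} {S : ℕ → J} (hrec : ∀ i t, ∃ b, t ≤ b ∧ S b = i) (j : J) (t : ℕ)
    (h : ∃ a ≤ t, S a = j) :
    ∃ a b, a ≤ t ∧ t < b ∧ S a = j ∧ S b = j ∧ ∀ u, a < u → u < b → S u ≠ j := by
  classical
  have hb : ∃ b, t < b ∧ S b = j := by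
    obtain ⟨b, hb, hb'⟩ := hrec j (t + 1)
    exact ⟨b, hb, hb'⟩
  have ha : ((range (t + 1)).filter (fun a => S a = j)).Nonempty := by
    obtain ⟨a, ha, ha'⟩ := h
    exact ⟨a, by simp; exact ⟨by omega, ha'⟩⟩
  set a := ((range (t + 1)).filter (fun a => S a = j)).max' ha with haa
  have ha1 : a ∈ (range (t + 1)).filter (fun a => S a = j) := max'_mem _ _
  rw [mem_filter, mem_range] at ha1
  refine ⟨a, Nat.find hb, by omega, (Nat.find_spec hb).1, ha1.2, (Nat.find_spec hb).2, ?_⟩
  intro u hu1 hu2 hu3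
  by_cases hut : u ≤ t
  · have : u ≤ a := le_max' _ _ (by simp; exact ⟨by omega, hu3⟩)
    omega
  · exact Nat.find_min hb hu2 ⟨by omega, hu3⟩

/-- The number of separators before time `t`. -/
noncomputable def bn (S : ℕ → RJob N I) (t : ℕ) : ℕ := by
  classical exact ((range t).filter (fun u => S u = .a)).card

theorem bn_mono (S : ℕ → RJob N I) {t u : ℕ} (h : t ≤ u) : bn S t ≤ bn S u := by
  classical
  unfold bn
  exact card_le_card (filter_subset_filter _ (range_subset_range.2 h))

theorem bn_succ_a {S : ℕ → RJob N I} {t : ℕ} (h : S t = .a) : bn S (t + 1) = bn S t + 1 := by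
  classical
  unfold bn
  rw [range_add_one, filter_insert, if_pos h, card_insert_of_notMem (by simp)]

theorem bn_succ_ne {S : ℕ → RJob N I} {t : ℕ} (h : S t ≠ .a) : bn S (t + 1) = bn S t := by
  classical
  unfold bn
  rw [range_add_one, filter_insert, if_neg h]

theorem bn_lt_of_a {S : ℕ → RJob N I} {t u : ℕ} (h : S t = .a) (htu : t < u) :
    bn S t < bn S u := by
  have h1 := bn_succ_a h
  have h2 := bn_mono S (show t + 1 ≤ u from htu)
  omega

/-- The separators in `(a, b]`. -/
theorem card_a {S : ℕ → RJob N I} {a b : ℕ} (hab : a ≤ b) [DecidablePred fun t => S t = .a] :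
    bn S (a + 1) + ((Ioc a b).filter (fun t => S t = .a)).card = bn S (b + 1) := by
  classical
  unfold bn
  rw [← card_union_of_disjoint]
  · congr 1
    ext t
    simp only [mem_union, mem_filter, mem_range, mem_Ioc]
    constructor
    · rintro (⟨h1, h2⟩ | ⟨h1, h2⟩)
      · exact ⟨by omega, h2⟩
      · exact ⟨by omega, h2⟩
    · rintro ⟨h1, h2⟩
      by_cases h : t < a + 1
      · exact Or.inl ⟨h, h2⟩
      · exact Or.inr ⟨by omega, h2⟩
  · rw [Finset.disjoint_left]
    intro t h1 h2
    simp only [mem_filter, mem_range, mem_Ioc] at h1 h2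
    omega

/-- Big jobs. -/
def IsR : RJob N I → Prop
  | .r _ => True
  | _ => False

theorem IsR.ne_a {j : RJob N I} (h : IsR j) : j ≠ .a := by
  rintro rfl
  exact h

theorem isR_iff {j : RJob N I} : IsR j ↔ ∃ t, j = .r t := by
  cases j <;> simp [IsR]

variable {c h : ℕ} {K : ℕ → ℕ} {s w : I → ℕ}

theorem rp_of_isR (hK : ∀ t < N, K t ≤ h) {j : RJob N I} (hj : IsR j) : c - h ≤ rp c K s j := by
  obtain ⟨t, rfl⟩ := isR_iff.1 hj
  have := hK t t.2
  simp only [rp]
  omega

open Classical in
/-- Lower bound for durations. -/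
theorem dur_ge (hK : ∀ t < N, K t ≤ h) (S : ℕ → RJob N I) (a b : ℕ) :
    c * ((Ioc a b).filter (fun t => S t = .a)).card +
      (c - h) * ((Ioc a b).filter (fun t => IsR (S t))).card ≤ dur (rp c K s) S a b := by
  unfold dur
  rw [mul_comm c, mul_comm (c - h), ← smul_eq_mul, ← smul_eq_mul]
  have h1 : ((Ioc a b).filter (fun t => S t = .a)).card • c ≤
      ∑ t ∈ (Ioc a b).filter (fun t => S t = .a), rp c K s (S t) := by
    refine card_nsmul_le_sum _ _ _ fun t ht => ?_
    rw [(mem_filter.1 ht).2]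
    exact le_rfl
  have h2 : ((Ioc a b).filter (fun t => IsR (S t))).card • (c - h) ≤
      ∑ t ∈ (Ioc a b).filter (fun t => IsR (S t)), rp c K s (S t) := by
    refine card_nsmul_le_sum _ _ _ fun t ht => ?_
    exact rp_of_isR hK (mem_filter.1 ht).2
  have h3 : Disjoint ((Ioc a b).filter (fun t => S t = .a))
      ((Ioc a b).filter (fun t => IsR (S t))) := by
    rw [Finset.disjoint_left]
    intro t h4 h5
    exact (mem_filter.1 h5).2.ne_a (mem_filter.1 h4).2
  refine (add_le_add h1 h2).trans ?_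
  rw [← sum_union h3]
  exact sum_le_sum_of_subset (by
    intro t ht
    rcases mem_union.1 ht with h4 | h4 <;> exact (mem_filter.1 h4).1)

/-- A schedule in its periodic regime: `t0` is a time after which everything has occurred. -/
structure Sched (N : ℕ) (I : Type) (c h : ℕ) (K : ℕ → ℕ) (s w : I → ℕ) where
  S : ℕ → RJob N I
  hrec : ∀ i t, ∃ b, t ≤ b ∧ S b = i
  hgap : ∀ i a b, a < b → S a = i → S b = i → (∀ t, a < t → t < b → S t ≠ i) →
    dur (rp c K s) S a b ≤ rf c h w i
  t0 : ℕ
  ht0 : ∀ j, ∃ a < t0, S a = j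
  t1 : ℕ
  ht1 : ∀ j, ∃ a < t1, t0 ≤ a ∧ S a = j
  hN : 1 ≤ N
  hK : ∀ t < N, K t ≤ h
  hc : (N + 2) * h < c
  hw : ∀ i, 1 ≤ w i ∧ w i ≤ N

namespace Sched

variable (X : Sched N I c h K s w)

include X in
theorem h_lt : 3 * h < c := by
  have h1 := X.hc
  have h2 := X.hN
  have : 3 * h ≤ (N + 2) * h := Nat.mul_le_mul_right _ (by omega)
  omega

theorem consec (j : RJob N I) {t : ℕ} (ht : X.t0 ≤ t) :
    ∃ a b, a ≤ t ∧ t < b ∧ X.S a = j ∧ X.S b = j ∧ (∀ u, a < u → u < b → X.S u ≠ j) ∧
      dur (rp c K s) X.S a b ≤ rf c h w j := by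
  obtain ⟨a, b, h1, h2, h3, h4, h5⟩ := exists_consec X.hrec j t (by
    obtain ⟨a, ha, ha'⟩ := X.ht0 j
    exact ⟨a, by omega, ha'⟩)
  exact ⟨a, b, h1, h2, h3, h4, h5, X.hgap j a b (by omega) h3 h4 h5⟩

theorem consec1 (j : RJob N I) {t : ℕ} (ht : X.t1 ≤ t) :
    ∃ a b, X.t0 ≤ a ∧ a ≤ t ∧ t < b ∧ X.S a = j ∧ X.S b = j ∧
      (∀ u, a < u → u < b → X.S u ≠ j) ∧ dur (rp c K s) X.S a b ≤ rf c h w j := by
  obtain ⟨a0, h1, h2, h3⟩ := X.ht1 j
  obtain ⟨a, b, h4, h5, h6, h7, h8, h9⟩ := X.consec j (t := t) (by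
    obtain ⟨a, ha, ha'⟩ := X.ht1 j
    omega)
  refine ⟨a, b, ?_, h4, h5, h6, h7, h8, h9⟩
  by_contra hcon
  exact h8 a0 (by omega) (by omega) h3

theorem win (j : RJob N I) {t : ℕ} (ht : X.t0 ≤ t) :
    ∃ b, t < b ∧ X.S b = j ∧ dur (rp c K s) X.S t b ≤ rf c h w j := by
  obtain ⟨a, b, h1, h2, h3, h4, h5, h6⟩ := X.consec j ht
  exact ⟨b, h2, h4, (dur_mono h1 le_rfl).trans h6⟩

/-- Two big jobs are in different bins. -/
theorem sep {t u : ℕ} (ht : X.t0 ≤ t) (htu : t < u) (h1 : IsR (X.S t)) (h2 : IsR (X.S u)) :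
    bn X.S t < bn X.S u := by
  classical
  by_contra hcon
  have hno : ∀ v, t ≤ v → v < u → X.S v ≠ .a := by
    intro v hv1 hv2 hv3
    have h3 := bn_lt_of_a hv3 hv2
    have h4 := bn_mono X.S hv1
    omega
  obtain ⟨a, b, ha1, ha2, ha3, ha4, ha5, ha6⟩ := X.consec .a ht
  have hbu : u < b := by
    by_contra hub
    push Not at hub
    rcases hub.lt_or_eq with hub | hub
    · exact hno b (by omega) hub ha4
    · rw [hub] at ha4
      exact h2.ne_a ha4
  have hat : a < t := by
    rcases ha1.lt_or_eq with h3 | h3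
    · exact h3
    · rw [h3] at ha3
      exact absurd ha3 h1.ne_a
  have h5 := dur_ge (c := c) (s := s) X.hK X.S a b
  have h6 : 1 ≤ ((Ioc a b).filter (fun t => X.S t = .a)).card :=
    card_pos.2 ⟨b, by simp [ha4]; omega⟩
  have h7 : 2 ≤ ((Ioc a b).filter (fun t => IsR (X.S t))).card := by
    have : ({t, u} : Finset ℕ) ⊆ (Ioc a b).filter (fun t => IsR (X.S t)) := by
      intro v hv
      simp only [mem_insert, mem_singleton] at hv
      rcases hv with rfl | rfl
      · simp only [mem_filter, mem_Ioc]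
        exact ⟨⟨hat, by omega⟩, h1⟩
      · simp only [mem_filter, mem_Ioc]
        exact ⟨⟨by omega, by omega⟩, h2⟩
    have h8 := card_le_card this
    rwa [card_pair (by omega)] at h8
  have h8 : c * 1 ≤ c * ((Ioc a b).filter (fun t => X.S t = .a)).card := Nat.mul_le_mul_left _ h6
  have h9 : (c - h) * 2 ≤ (c - h) * ((Ioc a b).filter (fun t => IsR (X.S t))).card :=
    Nat.mul_le_mul_left _ h7
  have h10 := X.h_lt
  simp only [rf] at ha6
  omega

theorem bn_inj {t u : ℕ} (ht : X.t0 ≤ t) (hu : X.t0 ≤ u) (h1 : IsR (X.S t)) (h2 : IsR (X.S u))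
    (h3 : bn X.S t = bn X.S u) : t = u := by
  rcases lt_trichotomy t u with h4 | h4 | h4
  · have := X.sep ht h4 h1 h2
    omega
  · exact h4
  · have := X.sep hu h4 h2 h1
    omega

open Classical in
/-- After a big job, there are at least as many separators as big jobs. -/
theorem card_le {a b : ℕ} (ha : X.t0 ≤ a) (h1 : IsR (X.S a)) :
    ((Ioc a b).filter (fun t => IsR (X.S t))).card ≤ bn X.S b - bn X.S a := by
  rw [← Nat.card_Ioc]
  refine card_le_card_of_injOn (bn X.S) ?_ ?_
  · intro t ht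
    simp only [coe_filter, mem_Ioc, Set.mem_ofPred_eq] at ht
    simp only [coe_Ioc, Set.mem_Ioc]
    exact ⟨X.sep ha ht.1.1 h1 ht.2, bn_mono _ ht.1.2⟩
  · intro t ht u hu htu
    simp only [coe_filter, mem_Ioc, Set.mem_ofPred_eq] at ht hu
    exact X.bn_inj (by omega) (by omega) ht.2 hu.2 htu

open Classical in
/-- Duration from a big job to a big job, in terms of the number of big jobs and bins. -/
theorem dur_R {a b : ℕ} (h1 : IsR (X.S a)) (hab : a ≤ b) (hb : IsR (X.S b)) :
    c * (bn X.S b - bn X.S a) + (c - h) * ((Ioc a b).filter (fun t => IsR (X.S t))).card ≤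
      dur (rp c K s) X.S a b := by
  have h2 := dur_ge (c := c) (s := s) X.hK X.S a b
  have h3 := card_a (S := X.S) hab
  rw [bn_succ_ne h1.ne_a, bn_succ_ne hb.ne_a] at h3
  rw [show ((Ioc a b).filter (fun t => X.S t = .a)).card = bn X.S b - bn X.S a by omega] at h2
  exact h2

/-- Too many big jobs in a window. -/
theorem not_many {a b n : ℕ} (ha : X.t0 ≤ a) (h1 : IsR (X.S a)) (hab : a ≤ b)
    (hb : IsR (X.S b)) (hd : dur (rp c K s) X.S a b ≤ N * (2 * c) + h) (P : Finset ℕ)
    (hP : ∀ t ∈ P, a < t ∧ t ≤ b ∧ IsR (X.S t)) (hn : P.card = n) : n ≤ N := by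
  classical
  by_contra hcon
  push Not at hcon
  have h2 : n ≤ ((Ioc a b).filter (fun t => IsR (X.S t))).card := by
    rw [← hn]
    refine card_le_card fun t ht => ?_
    have := hP t ht
    simp only [mem_filter, mem_Ioc]
    exact ⟨⟨this.1, this.2.1⟩, this.2.2⟩
  have h3 := X.card_le (b := b) ha h1
  have h4 := X.dur_R h1 hab hb
  have h5 : c * (N + 1) ≤ c * (bn X.S b - bn X.S a) := Nat.mul_le_mul_left _ (by omega)
  have h6 : (c - h) * (N + 1) ≤ (c - h) * ((Ioc a b).filter (fun t => IsR (X.S t))).card :=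
    Nat.mul_le_mul_left _ (by omega)
  have h7 := X.hc
  have h8 := X.h_lt
  have h9 : (c - h) * (N + 1) = c * (N + 1) - h * (N + 1) := Nat.sub_mul _ _ _
  have h10 : h * (N + 1) ≤ (N + 2) * h := by nlinarith
  have h11 : N * (2 * c) = 2 * (c * N) := by ring
  have h12 : c * (N + 1) = c * N + c := by ring
  omega

/-- Between consecutive occurrences of a big job all other big jobs occur. -/
theorem between {a b : ℕ} {t : Fin N} (ha : X.t1 ≤ a) (hab : a < b) (h1 : X.S a = .r t)
    (h2 : X.S b = .r t) (u : Fin N) :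
    ∃ v, a < v ∧ v ≤ b ∧ X.S v = .r u := by
  classical
  by_contra hcon
  push Not at hcon
  have hut : u ≠ t := by
    rintro rfl
    exact hcon b hab le_rfl h2
  -- the job `r u` is processed at `a' < a` and at `b' > b`, and not in between
  obtain ⟨a', b', ha0, ha1, ha2, ha3, ha4, ha5, ha6⟩ := X.consec1 (.r u) ha
  have haa : a' < a := by
    rcases ha1.lt_or_eq with h5 | h5
    · exact h5
    · rw [h5, h1] at ha3
      simp only [RJob.r.injEq] at ha3
      exact absurd ha3.symm hut
  have hbb : b < b' := by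
    by_contra h5
    exact hcon b' ha2 (by omega) ha4
  choose q hq1 hq2 hq3 using fun v : Fin N => X.win (.r v) ha0
  set P : Finset ℕ := insert a (insert b ((univ.erase t).image q)) with hP
  have hPR : ∀ v ∈ P, IsR (X.S v) := by
    intro v hv
    simp only [hP, mem_insert, mem_image, mem_erase, mem_univ, and_true] at hv
    rcases hv with rfl | rfl | ⟨y, -, rfl⟩
    · rw [h1]; trivial
    · rw [h2]; trivial
    · rw [hq2]; trivial
  have hPd : ∀ v ∈ P, dur (rp c K s) X.S a' v ≤ N * (2 * c) + h := by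
    intro v hv
    simp only [hP, mem_insert, mem_image, mem_erase, mem_univ, and_true] at hv
    rcases hv with rfl | rfl | ⟨y, -, rfl⟩
    · exact (dur_mono le_rfl (by omega)).trans ha6
    · exact (dur_mono le_rfl (by omega)).trans ha6
    · exact hq3 y
  have hPa : ∀ v ∈ P, a' < v := by
    intro v hv
    simp only [hP, mem_insert, mem_image, mem_erase, mem_univ, and_true] at hv
    rcases hv with rfl | rfl | ⟨y, -, rfl⟩
    · exact haa
    · omega
    · exact hq1 y
  have hcard : P.card = N + 1 := by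
    rw [hP, card_insert_of_notMem, card_insert_of_notMem, card_image_of_injective,
      card_erase_of_mem (mem_univ _), card_univ, Fintype.card_fin]
    · have := X.hN
      omega
    · intro x y hxy
      have h5 := hq2 x
      simp only [hxy] at h5
      rw [hq2 y] at h5
      simpa using h5.symm
    · simp only [mem_image, mem_erase, mem_univ, and_true, not_exists, not_and]
      rintro y hy rfl
      rw [hq2] at h2
      simp at h2
      exact hy h2
    · simp only [mem_insert, mem_image, mem_erase, mem_univ, and_true, not_or, not_exists, not_and]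
      refine ⟨by omega, ?_⟩
      rintro y hy rfl
      rw [hq2] at h1
      simp at h1
      exact hy h1
  have hne : P.Nonempty := ⟨a, by simp [hP]⟩
  set e := P.max' hne with he
  have heP : e ∈ P := max'_mem _ _
  have h5 := X.not_many ha0 (by rw [ha3]; trivial) (hPa e heP).le (hPR e heP) (hPd e heP) P
    (fun v hv => ⟨hPa v hv, le_max' _ _ hv, hPR v hv⟩) hcard
  omega

/-- From an occurrence of a big job to the next one there are exactly `N` bins, each with exactly
one big job. -/
theorem next {a : ℕ} {t : Fin N} (ha : X.t1 ≤ a) (h1 : X.S a = .r t) :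
    ∃ b, a < b ∧ X.S b = .r t ∧ (∀ v, a < v → v < b → X.S v ≠ .r t) ∧ bn X.S b = bn X.S a + N ∧
      ∀ x, bn X.S a < x → x ≤ bn X.S b → ∃ v, a < v ∧ v ≤ b ∧ IsR (X.S v) ∧ bn X.S v = x := by
  classical
  have ha' : X.t0 ≤ a := by
    obtain ⟨a0, h5, h6, -⟩ := X.ht1 .a
    omega
  obtain ⟨a', b, ha1, ha2, ha3, ha4, ha5, ha6⟩ := X.consec (.r t) ha'
  have : a' = a := by
    by_contra hne
    exact ha5 a (by omega) ha2 h1
  subst this
  have hRa : IsR (X.S a') := by rw [ha3]; trivial
  have hRb : IsR (X.S b) := by rw [ha4]; trivial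
  choose q hq1 hq2 hq3 using fun u : Fin N => X.between ha ha2 ha3 ha4 u
  set R := (Ioc a' b).filter (fun t => IsR (X.S t)) with hR
  have hRN : R.card = N := by
    refine le_antisymm ?_ ?_
    · exact X.not_many ha' hRa ha2.le hRb ha6 R (fun v hv => by
        simp only [hR, mem_filter, mem_Ioc] at hv
        exact ⟨hv.1.1, hv.1.2, hv.2⟩) rfl
    · have h5 : (univ.image q).card = N := by
        rw [card_image_of_injective, card_univ, Fintype.card_fin]
        intro x y hxy
        have h5 := hq3 x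
        simp only [hxy] at h5
        rw [hq3 y] at h5
        simpa using h5.symm
      rw [← h5]
      refine card_le_card fun v hv => ?_
      simp only [mem_image, mem_univ, true_and] at hv
      obtain ⟨y, rfl⟩ := hv
      simp only [hR, mem_filter, mem_Ioc]
      exact ⟨⟨hq1 y, hq2 y⟩, by rw [hq3]; trivial⟩
  have h5 := X.card_le (b := b) ha' hRa
  have h6 := X.dur_R hRa ha2.le hRb
  rw [← hR, hRN] at h5 h6
  have hbn : bn X.S b = bn X.S a' + N := by
    by_contra hne
    have hN := X.hN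
    have h7 : c * (N + 1) ≤ c * (bn X.S b - bn X.S a') := Nat.mul_le_mul_left _ (by omega)
    have h8 := X.hc
    have h9 := X.h_lt
    have h10 : (c - h) * N = c * N - h * N := Nat.sub_mul _ _ _
    have h11 : h * N ≤ c * N := Nat.mul_le_mul_right _ (by omega)
    have h12 : N * (2 * c) = 2 * (c * N) := by ring
    have h13 : c * (N + 1) = c * N + c := by ring
    have h14 : (N + 2) * h = h * N + 2 * h := by ring
    simp only [rf] at ha6
    omega
  refine ⟨b, ha2, ha4, ha5, hbn, ?_⟩
  have himg : R.image (bn X.S) = Ioc (bn X.S a') (bn X.S b) := by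
    refine eq_of_subset_of_card_le ?_ ?_
    · intro x hx
      simp only [hR, mem_image, mem_filter, mem_Ioc] at hx ⊢
      obtain ⟨v, ⟨⟨h7, h8⟩, h9⟩, rfl⟩ := hx
      exact ⟨X.sep ha' h7 hRa h9, bn_mono _ h8⟩
    · rw [card_image_of_injOn, hRN, Nat.card_Ioc]
      · omega
      · intro v hv u hu huv
        simp only [hR, coe_filter, mem_Ioc, Set.mem_ofPred_eq] at hv hu
        exact X.bn_inj (by omega) (by omega) hv.2 hu.2 huv
  intro x hx1 hx2
  have : x ∈ R.image (bn X.S) := by rw [himg, mem_Ioc]; exact ⟨hx1, hx2⟩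
  simp only [hR, mem_image, mem_filter, mem_Ioc] at this
  obtain ⟨v, ⟨⟨h7, h8⟩, h9⟩, h10⟩ := this
  exact ⟨v, h7, h8, h9, h10⟩

/-- Every late bin has a big job. -/
theorem exists_R : ∃ x0, ∀ x, x0 ≤ x → ∃ v, X.t1 ≤ v ∧ IsR (X.S v) ∧ bn X.S v = x := by
  obtain ⟨a0, ha0, ha0'⟩ := X.hrec (.r ⟨0, X.hN⟩) X.t1
  refine ⟨bn X.S a0, fun x hx => ?_⟩
  induction x, hx using Nat.le_induction with
  | base => exact ⟨a0, ha0, by rw [ha0']; trivial, rfl⟩
  | succ x hx ih =>
    obtain ⟨v, h1, h2, h3⟩ := ih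
    obtain ⟨t, ht⟩ := isR_iff.1 h2
    obtain ⟨b, h4, h5, h6, h7, h8⟩ := X.next h1 ht
    have := X.hN
    obtain ⟨u, h9, h10, h11, h12⟩ := h8 (x + 1) (by omega) (by omega)
    exact ⟨u, by omega, h11, h12⟩

/-- The big job of a late bin. -/
theorem exists_big : ∃ (x0 : ℕ) (ρ : ℕ → ℕ) (τ : ℕ → Fin N), ∀ x, x0 ≤ x →
    X.t1 ≤ ρ x ∧ X.S (ρ x) = .r (τ x) ∧ bn X.S (ρ x) = x := by
  classical
  obtain ⟨x0, hx0⟩ := X.exists_R
  have h1 : ∀ x, ∃ v, x0 ≤ x → X.t1 ≤ v ∧ IsR (X.S v) ∧ bn X.S v = x := by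
    intro x
    by_cases hx : x0 ≤ x
    · obtain ⟨v, hv⟩ := hx0 x hx
      exact ⟨v, fun _ => hv⟩
    · exact ⟨0, fun h => absurd h hx⟩
  choose ρ hρ using h1
  have h2 : ∀ x, ∃ t : Fin N, x0 ≤ x → X.S (ρ x) = .r t := by
    intro x
    by_cases hx : x0 ≤ x
    · obtain ⟨t, ht⟩ := isR_iff.1 (hρ x hx).2.1
      exact ⟨t, fun _ => ht⟩
    · exact ⟨⟨0, X.hN⟩, fun h => absurd h hx⟩
  choose τ hτ using h2
  exact ⟨x0, ρ, τ, fun x hx => ⟨(hρ x hx).1, hτ x hx, (hρ x hx).2.2⟩⟩

/-- A separator closing bin `x`. -/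
theorem exists_sep (x : ℕ) : ∃ u, X.S u = .a ∧ bn X.S u = x := by
  classical
  have hex : ∃ t, x + 1 ≤ bn X.S t := by
    induction x with
    | zero =>
      obtain ⟨b, -, hb⟩ := X.hrec .a 0
      exact ⟨b + 1, by rw [bn_succ_a hb]; omega⟩
    | succ x ih =>
      obtain ⟨t, ht⟩ := ih
      obtain ⟨b, hb1, hb⟩ := X.hrec .a t
      have := bn_mono X.S hb1
      exact ⟨b + 1, by rw [bn_succ_a hb]; omega⟩
  have hpos : Nat.find hex ≠ 0 := by
    intro h0
    have := Nat.find_spec hex
    rw [h0] at this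
    simp [bn] at this
  obtain ⟨u, hu⟩ := Nat.exists_eq_succ_of_ne_zero hpos
  have h1 := Nat.find_spec hex
  have h2 := Nat.find_min hex (m := u) (by omega)
  rw [hu, Nat.succ_eq_add_one] at h1
  by_cases hS : X.S u = .a
  · rw [bn_succ_a hS] at h1
    exact ⟨u, hS, by omega⟩
  · rw [bn_succ_ne hS] at h1
    exact absurd h1 h2

/-- The items processed in bin `x`. -/
noncomputable def cont [Fintype I] [DecidableEq I] (x : ℕ) : Finset I := by
  classical exact univ.filter fun i => ∃ t, bn X.S t = x ∧ X.S t = .item i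

end Sched

end RS

theorem stmt_RS : Stmt_RS := by
  classical
  intro N I _ _ c h K s w hN hK hc hw ⟨S, hS⟩
  have hrec := fun i => (hS i).1
  have hfin : ∀ t, ∃ t', ∀ j : RJob N I, ∃ a < t', t ≤ a ∧ S a = j := by
    intro t
    choose q hq1 hq2 using fun j => hrec j t
    obtain ⟨M, hM⟩ := (Set.finite_range q).bddAbove
    refine ⟨M + 1, fun j => ⟨q j, ?_, hq1 j, hq2 j⟩⟩
    have := hM ⟨j, rfl⟩
    omega
  obtain ⟨t0, ht0⟩ := hfin 0
  obtain ⟨t1, ht1⟩ := hfin t0
  let X : Sched N I c h K s w := ⟨S, hrec, fun i => (hS i).2, t0, fun j => by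
    obtain ⟨a, h1, -, h2⟩ := ht0 j
    exact ⟨a, h1, h2⟩, t1, ht1, hN, hK, hc, hw⟩
  have h01 : t0 ≤ t1 := by
    obtain ⟨a, h1, h2, -⟩ := ht1 .a
    omega
  obtain ⟨x0, ρ, τ, hρ⟩ := X.exists_big
  have hIsR : ∀ x, x0 ≤ x → IsR (S (ρ x)) := fun x hx => by
    have := (hρ x hx).2.1
    change S (ρ x) = _ at this
    rw [this]; trivial
  -- positions in late bins are late
  have hlate : ∀ x, x0 + 1 ≤ x → ∀ u, x ≤ bn S u → t1 ≤ u := by
    intro x hx u hu
    have h1 := hρ x0 le_rfl
    by_contra hcon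
    have h2 := bn_mono S (show u ≤ ρ x0 from by have := h1.1; change t1 ≤ _ at this; omega)
    have h3 : bn S (ρ x0) = x0 := h1.2.2
    omega
  refine ⟨x0 + 2, fun x => (τ x : ℕ), X.cont, fun x _ => (τ x).2, ?_, ?_, ?_, ?_⟩
  · -- periodicity
    intro x hx
    obtain ⟨h1, h2, h3⟩ := hρ x (by omega)
    obtain ⟨b, h4, h5, h6, h7, h8⟩ := X.next h1 h2
    obtain ⟨h9, h10, h11⟩ := hρ (x + N) (by omega)
    have h12 : ρ (x + N) = b := by
      apply X.bn_inj (by have := h9; change t1 ≤ _ at this; change t0 ≤ _; omega)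
        (by change t1 ≤ _ at h1; change t0 ≤ _; omega)
      · rw [h10]; trivial
      · rw [h5]; trivial
      · rw [h11, h7, h3]
    rw [h12, h5] at h10
    simp only [RJob.r.injEq] at h10
    simp only [h10]
  · -- different types
    intro x y hx hxy hyN hτ
    obtain ⟨h1, h2, h3⟩ := hρ x (by omega)
    obtain ⟨b, h4, h5, h6, h7, h8⟩ := X.next h1 h2
    obtain ⟨h9, h10, h11⟩ := hρ y (by omega)
    have h12 : τ y = τ x := Fin.ext hτ
    rw [h12] at h10
    refine h6 (ρ y) ?_ ?_ h10
    · by_contra hcon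
      have := bn_mono X.S (not_lt.1 hcon)
      omega
    · by_contra hcon
      have := bn_mono X.S (not_lt.1 hcon)
      omega
  · -- capacity
    intro x hx
    obtain ⟨u1, hu1, hu1'⟩ := X.exists_sep (x - 1)
    obtain ⟨u2, hu2, hu2'⟩ := X.exists_sep x
    have hu12 : u1 < u2 := by
      by_contra hcon
      have := bn_mono X.S (not_lt.1 hcon)
      omega
    have hno : ∀ v, u1 < v → v < u2 → X.S v ≠ .a := by
      intro v hv1 hv2 hv3
      have h1 := bn_lt_of_a hu1 hv1
      have h2 := bn_lt_of_a hv3 hv2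
      omega
    have hd := X.hgap .a u1 u2 hu12 hu1 hu2 hno
    obtain ⟨h1, h2, h3⟩ := hρ x (by omega)
    have hmem : ∀ v, X.S v ≠ .a → bn X.S v = x → v ∈ Ioc u1 u2 := by
      intro v hv1 hv2
      rw [mem_Ioc]
      constructor
      · by_contra hcon
        have := bn_mono X.S (not_lt.1 hcon)
        omega
      · by_contra hcon
        have := bn_lt_of_a hu2 (not_le.1 hcon)
        omega
    have hq : ∀ i : I, ∃ v, i ∈ X.cont x → bn X.S v = x ∧ X.S v = .item i := by
      intro i
      by_cases hi : i ∈ X.cont x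
      · simp only [Sched.cont, mem_filter, mem_univ, true_and] at hi
        obtain ⟨v, hv⟩ := hi
        exact ⟨v, fun _ => hv⟩
      · exact ⟨0, fun h => absurd h hi⟩
    choose q hq using hq
    have hsum : rp c K s (X.S u2) + (rp c K s (X.S (ρ x)) +
        ∑ v ∈ (X.cont x).image q, rp c K s (X.S v)) ≤ dur (rp c K s) X.S u1 u2 := by
      unfold dur
      rw [← sum_insert (s := (X.cont x).image q) (a := ρ x) (f := fun v => rp c K s (X.S v)),
        ← sum_insert (s := insert (ρ x) ((X.cont x).image q)) (a := u2)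
          (f := fun v => rp c K s (X.S v))]
      · refine sum_le_sum_of_subset fun v hv => ?_
        simp only [mem_insert, mem_image] at hv
        rcases hv with rfl | rfl | ⟨i, hi, rfl⟩
        · rw [mem_Ioc]; exact ⟨hu12, le_rfl⟩
        · exact hmem _ (by rw [h2]; simp) h3
        · exact hmem _ (by rw [(hq i hi).2]; simp) (hq i hi).1
      · simp only [mem_insert, mem_image, not_or, not_exists, not_and]
        constructor
        · intro h4
          rw [h4, h2] at hu2
          simp at hu2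
        · intro i hi h4
          rw [← h4, (hq i hi).2] at hu2
          simp at hu2
      · simp only [mem_image, not_exists, not_and]
        intro i hi h4
        rw [← h4, (hq i hi).2] at h2
        simp at h2
    rw [hu2, h2, sum_image] at hsum
    · have h4 : ∑ i ∈ X.cont x, rp c K s (X.S (q i)) = ∑ i ∈ X.cont x, s i :=
        sum_congr rfl fun i hi => by rw [(hq i hi).2]; rfl
      rw [h4] at hsum
      have h5 := X.h_lt
      have h6 := hK (τ x) (τ x).2
      simp only [rp, rf] at hsum hd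
      show ∑ i ∈ X.cont x, s i ≤ K (τ x)
      omega
    · intro i hi j hj hij
      have h4 := (hq i hi).2
      have h5 := (hq j hj).2
      rw [hij, h5] at h4
      simpa using h4.symm
  · -- windows
    intro i x hx
    obtain ⟨u, hu, hu'⟩ := X.exists_sep (x - 1)
    have hut : t1 ≤ u := hlate (x - 1) (by omega) u (by change _ ≤ bn X.S u; omega)
    obtain ⟨a, b, h1, h2, h3, h4, h5, h6⟩ := X.consec (.item i) (t := u) (by
      change t0 ≤ u; omega)
    have hau : a < u := by
      rcases h1.lt_or_eq with h7 | h7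
      · exact h7
      · rw [h7, hu] at h3
        simp at h3
    have hba := bn_lt_of_a hu h2
    refine ⟨bn X.S b, by omega, ?_, ?_⟩
    · by_contra hcon
      push Not at hcon
      have h7 := dur_ge (c := c) (s := s) X.hK X.S a b
      have h8 := card_a (S := X.S) (show a ≤ b by omega)
      rw [bn_succ_ne (by rw [h3]; simp), bn_succ_ne (by rw [h4]; simp)] at h8
      have h9 := bn_mono X.S hau.le
      have h10 : w i ≤ ((Ioc a b).filter (fun t => IsR (X.S t))).card := by
        have h11 : ((range (w i)).image fun j => ρ (x + j)).card = w i := by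
          rw [card_image_of_injOn, card_range]
          intro j _ k _ hjk
          have h12 := (hρ (x + j) (by omega)).2.2
          have h13 := (hρ (x + k) (by omega)).2.2
          simp only at hjk
          rw [hjk, h13] at h12
          omega
        rw [← h11]
        refine card_le_card fun v hv => ?_
        simp only [mem_image, mem_range] at hv
        obtain ⟨j, hj, rfl⟩ := hv
        obtain ⟨h12, h13, h14⟩ := hρ (x + j) (by omega)
        simp only [mem_filter, mem_Ioc]
        refine ⟨⟨?_, ?_⟩, by rw [h13]; trivial⟩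
        · by_contra hcon2
          have := bn_mono X.S (not_lt.1 hcon2)
          omega
        · by_contra hcon2
          have := bn_mono X.S (not_le.1 hcon2).le
          omega
      have h11 : c * (w i + 1) ≤ c * ((Ioc a b).filter (fun t => X.S t = .a)).card :=
        Nat.mul_le_mul_left _ (by omega)
      have h12 : (c - h) * w i ≤ (c - h) * ((Ioc a b).filter (fun t => IsR (X.S t))).card :=
        Nat.mul_le_mul_left _ h10
      have h13 : (c - h) * w i = c * w i - h * w i := Nat.sub_mul _ _ _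
      have h14 : h * w i ≤ h * N := Nat.mul_le_mul_left _ (hw i).2
      have h15 : w i * (2 * c) = 2 * (c * w i) := by ring
      have h16 : c * (w i + 1) = c * w i + c := by ring
      have h17 : (N + 2) * h = h * N + 2 * h := by ring
      have h18 := X.h_lt
      have h19 : h * w i ≤ c * w i := Nat.mul_le_mul_right _ (by omega)
      simp only [rf] at h6
      omega
    · simp only [Sched.cont, mem_filter, mem_univ, true_and]
      exact ⟨b, rfl, h4⟩

end Pool.Agent.Work.MP_a392d0_lc
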